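import Pool.Agent.H46.BorelPow.BVCore

set_option autoImplicit false

namespace Pool.Agent.Results.MP_b4c787_gt.BooleanValued

open Pool.Agent.H46.BorelPow

/-- **Boolean-valued counterexample, without any additional axiom.**
There are a nontrivial, `(ω, ∞)`-distributive complete Boolean algebra `𝔹` and a `𝔹`-valued set of
reals `X` such that the truth value of `X satisfies S₁(ℬ_Ω, ℬ_Ω)` is `⊤` and, for every
`n ≥ 2`, the truth value of `X ^ n satisfies S₁(ℬ, ℬ)` is `⊥`. -/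
theorem result : ∃ (𝔹 : Type) (_ : CompleteBooleanAlgebra 𝔹), Nontrivial 𝔹 ∧ OmegaDistributive 𝔹 ∧
    ∃ X : ℝ → 𝔹, bvS1 (bvOmegaCover X) = ⊤ ∧
      ∀ n, 2 ≤ n → bvS1 (bvCover (bvPower X n)) = ⊥ :=
  bv_main

end Pool.Agent.Results.MP_b4c787_gt.BooleanValued
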