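import Pool.Agent.H46.BorelPow.Core

set_option autoImplicit false

open scoped Cardinal

namespace Pool.Agent.Results.MP_b4c787_gt.CHCounterexample

open Pool.Agent.H46.BorelPow

/-- **Main result.** Assume the continuum hypothesis, or just Martin's axiom for countable posets.
Then there is a set of reals `X` which satisfies `S₁(ℬ_Ω, ℬ_Ω)` while, for every `n ≥ 2`, the power
`X ^ n` satisfies neither `S₁(ℬ, ℬ)` nor `S_fin(ℬ, ℬ)`; in fact `X ^ n` is mapped onto `ℕ → ℕ` by
a Borel function. -/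
theorem result (h : (ℵ₁ : Cardinal.{0}) = 𝔠 ∨ MACountable) : ∃ X : Set ℝ,
    S1 (BorelOmegaCovers X) (BorelOmegaCovers X) ∧
    ∀ n, 2 ≤ n → ¬ S1 (BorelCovers (power X n)) (BorelCovers (power X n)) ∧
      ¬ Sfin (BorelCovers (power X n)) (BorelCovers (power X n)) ∧
      ∃ Ψ : (Fin n → ℝ) → (ℕ → ℕ), Measurable Ψ ∧ Ψ '' (power X n) = Set.univ :=
  result_MA (h.elim maCountable_of_CH id)

end Pool.Agent.Results.MP_b4c787_gt.CHCounterexample
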