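import Pool.Agent.G16.BPow

set_option autoImplicit false

namespace Pool.Agent.Results.MP_b4c787_gt.ZFCModel

open CI Pool.Agent.G16

/-- **A model of ZFC with a counterexample.** There is a model `(M, E)` of ZFC in which some subset
`X` of the Cantor space `P(w)` satisfies `S₁(ℬ_Ω, ℬ_Ω)`, while all its finite powers `X ^ n`,
`n ≥ 2`, fail `S₁(ℬ, ℬ)`. All notions are taken inside the model; `w` is its set of natural
numbers. -/
theorem result : ∃ (M : Type 1) (E : M → M → Prop), ZFC E ∧ ∃ w X : M, IsOmega E w ∧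
    (∀ x, E x X → Sub E x w) ∧
    S1 E w (IsBOm E w (IsBor1 E w) X) (IsBOm E w (IsBor1 E w) X) ∧
    ∀ n, E n w → GeTwo E n → ∃ Z, IsPow E n X Z ∧
      ¬ S1 E w (IsBCov E w (IsBorP E w n) Z) (IsBCov E w (IsBorP E w n) Z) :=
  finalP

end Pool.Agent.Results.MP_b4c787_gt.ZFCModel
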